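import Pool.Agent.H2.NL.Basic

/-!
# The sign conjecture for the powers
-/

set_option autoImplicit false
set_option linter.unusedSectionVars false

open Matrix Pool.Agent.H64.CC

namespace Pool.Agent.H14.NL.CPW

open Pool.Agent.H2.NL

section words

variable {K : Type} [Field K] {I : Type} [DecidableEq I]

/-- the products of the entries of the parity operator -/
theorem zip_diag (d : I → ℕ) : ∀ u v : List I, u.length = v.length →
    (List.zipWith (fun a b => (Matrix.diagonal fun a => (-1 : K) ^ d a) a b) u v).prod =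
      if u = v then (-1 : K) ^ (u.map d).sum else 0 := by
  intro u
  induction u with
  | nil =>
    intro v hv
    have h : v = [] := List.length_eq_zero_iff.1 hv.symm
    subst h
    simp
  | cons a u ih =>
    intro v hv
    match v, hv with
    | b :: v, hv =>
      have hl : u.length = v.length := by simpa using hv
      rw [List.zipWith_cons_cons, List.prod_cons, ih v hl]
      by_cases hab : a = b
      · subst hab
        rw [Matrix.diagonal_apply_eq]
        by_cases huv : u = v
        · subst huv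
          rw [if_pos rfl, if_pos rfl, List.map_cons, List.sum_cons, pow_add]
        · rw [if_neg huv, if_neg (fun h => huv (List.cons.inj h).2), mul_zero]
      · rw [Matrix.diagonal_apply_ne _ hab, zero_mul, if_neg (fun h => hab (List.cons.inj h).1)]

end words

section weil

variable {K : Type} [Field K] [CharZero K] (W : Weil K)

/-- the parity operator is algebraic -/
theorem parity_mem (hW : W.Theory) {n : ℕ} (X : W.Var n) (h : W.Cplus X) :
    (Matrix.diagonal fun a => (-1 : K) ^ W.deg X a : W.Hom X X) ∈ W.cyc X X 0 := by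
  have h1 : (2 : ℚ) • W.even X - W.id X ∈ W.cyc X X 0 :=
    (W.cyc X X 0).sub_mem ((W.cyc X X 0).smul_mem 2 h) (hW.calculus.one_mem X)
  have e : (2 : ℚ) • W.even X - W.id X =
      (Matrix.diagonal fun a => (-1 : K) ^ W.deg X a : W.Hom X X) := by
    ext a b
    rw [Matrix.sub_apply, Matrix.smul_apply, Rat.smul_def, Weil.even, Weil.id]
    by_cases hab : a = b
    · subst hab
      rw [Matrix.diagonal_apply_eq, Matrix.diagonal_apply_eq, Matrix.one_apply_eq]
      rcases Nat.even_or_odd (W.deg X a) with he | ho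
      · rw [if_pos he, he.neg_one_pow]
        push_cast
        ring
      · rw [if_neg (Nat.not_even_iff_odd.2 ho), ho.neg_one_pow]
        push_cast
        ring
    · rw [Matrix.diagonal_apply_ne _ hab, Matrix.diagonal_apply_ne _ hab, Matrix.one_apply_ne hab,
        mul_zero, sub_zero]
  rwa [e] at h1

/-- the sign conjecture, if the parity operator is algebraic -/
theorem of_parity_mem (hW : W.Theory) {n : ℕ} (X : W.Var n)
    (h : (Matrix.diagonal fun a => (-1 : K) ^ W.deg X a : W.Hom X X) ∈ W.cyc X X 0) :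
    W.Cplus X := by
  have h1 : (1 / 2 : ℚ) • (W.id X + (Matrix.diagonal fun a => (-1 : K) ^ W.deg X a : W.Hom X X)) ∈
      W.cyc X X 0 :=
    (W.cyc X X 0).smul_mem _ ((W.cyc X X 0).add_mem (hW.calculus.one_mem X) h)
  have e : (1 / 2 : ℚ) • (W.id X +
      (Matrix.diagonal fun a => (-1 : K) ^ W.deg X a : W.Hom X X)) = W.even X := by
    ext a b
    rw [Matrix.smul_apply, Rat.smul_def, Matrix.add_apply, Weil.even, Weil.id]
    by_cases hab : a = b
    · subst hab
      rw [Matrix.diagonal_apply_eq, Matrix.diagonal_apply_eq, Matrix.one_apply_eq]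
      rcases Nat.even_or_odd (W.deg X a) with he | ho
      · rw [if_pos he, he.neg_one_pow]
        push_cast
        norm_num
      · rw [if_neg (Nat.not_even_iff_odd.2 ho), ho.neg_one_pow]
        push_cast
        ring
    · rw [Matrix.diagonal_apply_ne _ hab, Matrix.diagonal_apply_ne _ hab, Matrix.one_apply_ne hab,
        add_zero, mul_zero]
  rw [e] at h1
  exact h1

end weil

theorem pf_CPW (hIDS : T_IDS) (hOPG : T_OPG) : T_CPW := by
  intro K _ _ W hW m T P hT n
  have hu : IsUnit P.form.det := (Matrix.isUnit_iff_isUnit_det _).1 P.form_unit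
  have h1 : P.form * P.form⁻¹ = 1 := Matrix.mul_nonsing_inv _ hu
  have h2 : P.form⁻¹ * P.form = 1 := Matrix.nonsing_inv_mul _ hu
  obtain ⟨g, hg⟩ : ∃ g : W.Hom T T, g = Matrix.diagonal fun a => (-1 : K) ^ W.deg T a := ⟨_, rfl⟩
  have hgm : g ∈ W.cyc T T 0 := by
    rw [hg]
    exact parity_mem W hW T hT
  obtain ⟨t, ht, hgt⟩ := (P.graph_one g).1 hgm
  obtain ⟨O1, -, -, -, O5⟩ := hOPG K (Fin (W.rk T)) P.form P.form⁻¹ h1 h2 1
  obtain ⟨-, -, -, O4, -⟩ := hOPG K (Fin (W.rk T)) P.form P.form⁻¹ h1 h2 n
  have hs : g * P.form⁻¹ * P.form = g := by rw [Matrix.mul_assoc, h2, Matrix.mul_one]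
  have hop : op P.form 1 t = op P.form 1 (two (g * P.form⁻¹)) := by
    rw [O5, hs]
    ext u v
    obtain ⟨u, hu⟩ := u
    obtain ⟨v, hv⟩ := v
    obtain ⟨a, rfl⟩ := List.length_eq_one_iff.1 hu
    obtain ⟨b, rfl⟩ := List.length_eq_one_iff.1 hv
    have e1 := congrFun (congrFun hgt a) b
    rw [Matrix.of_apply] at e1
    show opw P.form 1 t [a] [b] = (List.zipWith (fun a b => g a b) [a] [b]).prod
    rw [← e1]
    simp
  have hs1 : two (g * P.form⁻¹) ∈ P.toPowerData.classes 1 :=
    P.calculus.congr 1 t _ ht fun w hw => (O1 _ _ hop w hw).symm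
  have hsn := hIDS K (Fin (W.rk T)) (W.par T) P.form P.form⁻¹ _ P.calculus _ hs1 n
  have hf := (P.graph n (Matrix.of fun a b =>
    opw P.form n (idt (g * P.form⁻¹) n) (P.word n a) (P.word n b))).2 ⟨_, hsn, rfl⟩
  refine of_parity_mem W hW _ ?_
  have e : (Matrix.of fun a b =>
      opw P.form n (idt (g * P.form⁻¹) n) (P.word n a) (P.word n b) : W.Hom (P.pow n) (P.pow n)) =
      Matrix.diagonal fun a => (-1 : K) ^ W.deg (P.pow n) a := by
    ext a b
    have la : (P.word n a).length = n := (P.word_range n _).1 ⟨a, rfl⟩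
    have lb : (P.word n b).length = n := (P.word_range n _).1 ⟨b, rfl⟩
    have e2 := congrFun (congrFun (O4 (g * P.form⁻¹)) ⟨P.word n a, la⟩) ⟨P.word n b, lb⟩
    rw [hs] at e2
    have e3 : opw P.form n (idt (g * P.form⁻¹) n) (P.word n a) (P.word n b) =
        (List.zipWith (fun a b => g a b) (P.word n a) (P.word n b)).prod := e2
    rw [Matrix.of_apply, e3, hg, zip_diag _ _ _ (la.trans lb.symm)]
    by_cases hab : a = b
    · subst hab
      rw [if_pos rfl, Matrix.diagonal_apply_eq, P.word_deg]
    · rw [if_neg (fun h => hab (P.word_inj n h)), Matrix.diagonal_apply_ne _ hab]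
  rw [← e]
  exact hf

end Pool.Agent.H14.NL.CPW
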