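import Pool.Agent.H2.NL.Basic

/-!
# The pairing in terms of the partial contractions
-/

set_option autoImplicit false
set_option linter.unusedSectionVars false

open Matrix

namespace Pool.Agent.H14.NL.NNN

open Pool.Agent.H2.NL

section

variable {K : Type} [Field K] {I : Type} [Fintype I] [DecidableEq I] (F : Form K I)

theorem Pr_sum_left {ι : Type} (s : Finset ι) (c : ι → K) (n : ℕ) :
    ∀ (x : ι → List I → K) (y : List I → K),
    Pr F n (fun l => ∑ i ∈ s, c i * x i l) y = ∑ i ∈ s, c i * Pr F n (x i) y := by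
  induction n with
  | zero =>
    intro x y
    show (∑ i ∈ s, c i * x i []) * y [] = ∑ i ∈ s, c i * (x i [] * y [])
    rw [Finset.sum_mul]
    exact Finset.sum_congr rfl fun i _ => mul_assoc _ _ _
  | succ n ih =>
    intro x y
    show ∑ a, F.c a * Pr F n (fun l => ∑ i ∈ s, c i * x i (a :: l)) (fun l => y (F.st a :: l)) =
      ∑ i ∈ s, c i * ∑ a, F.c a * Pr F n (fun l => x i (a :: l)) (fun l => y (F.st a :: l))
    have h1 : ∀ a, Pr F n (fun l => ∑ i ∈ s, c i * x i (a :: l)) (fun l => y (F.st a :: l)) =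
        ∑ i ∈ s, c i * Pr F n (fun l => x i (a :: l)) (fun l => y (F.st a :: l)) :=
      fun a => ih (fun i l => x i (a :: l)) _
    simp only [h1, Finset.mul_sum]
    rw [Finset.sum_comm]
    refine Finset.sum_congr rfl fun i _ => Finset.sum_congr rfl fun a _ => ?_
    ring

theorem Pr_sum_right {ι : Type} (s : Finset ι) (c : ι → K) (n : ℕ) :
    ∀ (x : List I → K) (y : ι → List I → K),
    Pr F n x (fun l => ∑ i ∈ s, c i * y i l) = ∑ i ∈ s, c i * Pr F n x (y i) := by
  induction n with
  | zero =>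
    intro x y
    show x [] * (∑ i ∈ s, c i * y i []) = ∑ i ∈ s, c i * (x [] * y i [])
    rw [Finset.mul_sum]
    exact Finset.sum_congr rfl fun i _ => mul_left_comm _ _ _
  | succ n ih =>
    intro x y
    show ∑ a, F.c a * Pr F n (fun l => x (a :: l)) (fun l => ∑ i ∈ s, c i * y i (F.st a :: l)) =
      ∑ i ∈ s, c i * ∑ a, F.c a * Pr F n (fun l => x (a :: l)) (fun l => y i (F.st a :: l))
    have h1 : ∀ a, Pr F n (fun l => x (a :: l)) (fun l => ∑ i ∈ s, c i * y i (F.st a :: l)) =
        ∑ i ∈ s, c i * Pr F n (fun l => x (a :: l)) (fun l => y i (F.st a :: l)) :=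
      fun a => ih _ (fun i l => y i (F.st a :: l))
    simp only [h1, Finset.mul_sum]
    rw [Finset.sum_comm]
    refine Finset.sum_congr rfl fun i _ => Finset.sum_congr rfl fun a _ => ?_
    ring

theorem Pr_smul_left (k : K) (n : ℕ) (x y : List I → K) :
    Pr F n (fun l => k * x l) y = k * Pr F n x y := by
  have h := Pr_sum_left F (Finset.univ : Finset Unit) (fun _ => k) n (fun _ => x) y
  simpa using h

theorem Pr_congr (n : ℕ) : ∀ (x x' y y' : List I → K),
    (∀ w : List I, w.length = n → x w = x' w) → (∀ w : List I, w.length = n → y w = y' w) →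
    Pr F n x y = Pr F n x' y' := by
  induction n with
  | zero =>
    intro x x' y y' hx hy
    show x [] * y [] = x' [] * y' []
    rw [hx [] rfl, hy [] rfl]
  | succ n ih =>
    intro x x' y y' hx hy
    show ∑ a, _ = ∑ a, _
    refine Finset.sum_congr rfl fun a _ => ?_
    rw [ih (fun l => x (a :: l)) (fun l => x' (a :: l)) (fun l => y (F.st a :: l))
      (fun l => y' (F.st a :: l)) (fun w hw => hx _ (by simp [hw]))
      (fun w hw => hy _ (by simp [hw]))]

end

theorem pf_NNN : T_NNN := by
  intro K _ I _ _ F n x y hn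
  obtain ⟨m, rfl⟩ : ∃ m, n = m + 2 := ⟨n - 2, by omega⟩
  refine ⟨rfl, fun a d => rfl, ?_, ?_⟩
  · show ∑ a, ∑ d, F.c a * F.c (F.st d) *
        Pr F m (fun l => x (a :: F.st a :: l)) (fun l => y (d :: F.st d :: l)) =
      Pr F m (con F.η 0 x) (con' F y)
    have hx : con F.η 0 x = fun l => ∑ a, F.c a * x (a :: F.st a :: l) :=
      funext fun l => F.con_append [] x l
    have hy : con' F y = fun l => ∑ d, F.c d * y (F.st d :: d :: l) := rfl
    rw [hx, hy, Pr_sum_left F Finset.univ F.c m (fun a l => x (a :: F.st a :: l))]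
    refine Finset.sum_congr rfl fun a _ => ?_
    rw [Pr_sum_right F Finset.univ F.c m _ (fun d l => y (F.st d :: d :: l)), Finset.mul_sum,
      ← F.sum_st]
    refine Finset.sum_congr rfl fun d _ => ?_
    rw [F.st_st, mul_assoc]
  · intro hS a b e d
    show Pr F m (fun l => x (a :: b :: l)) (fun l => y (d :: e :: l)) =
      ks K (F.o a) (F.o b) * Pr F m (fun l => x (b :: a :: l)) (fun l => y (d :: e :: l))
    rw [← Pr_smul_left]
    refine Pr_congr F m _ _ _ _ (fun w hw => ?_) (fun _ _ => rfl)
    exact (hS 0 (by omega) (a :: b :: w) (by simp [hw])).symm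

end Pool.Agent.H14.NL.NNN
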